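import Pool.Agent.T2H99.QB.AFF
import Pool.Agent.T2H99.QB.APX
import Pool.Agent.T2H99.QB.AS1
import Pool.Agent.T2H99.QB.AS2
import Pool.Agent.T2H99.QB.BET
import Pool.Agent.T2H99.QB.C0B
import Pool.Agent.T2H99.QB.CE1
import Pool.Agent.T2H99.QB.CE2
import Pool.Agent.T2H99.QB.CLO
import Pool.Agent.T2H99.QB.CNT
import Pool.Agent.T2H99.QB.COL
import Pool.Agent.T2H99.QB.CRL
import Pool.Agent.T2H99.QB.CRR
import Pool.Agent.T2H99.QB.CS
import Pool.Agent.T2H99.QB.DAT
import Pool.Agent.T2H99.QB.DB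
import Pool.Agent.T2H99.QB.DFI
import Pool.Agent.T2H99.QB.DFS
import Pool.Agent.T2H99.QB.DUN
import Pool.Agent.T2H99.QB.EMP
import Pool.Agent.T2H99.QB.END
import Pool.Agent.T2H99.QB.EQ1
import Pool.Agent.T2H99.QB.EQ2
import Pool.Agent.T2H99.QB.EQS
import Pool.Agent.T2H99.QB.EXI
import Pool.Agent.T2H99.QB.FF
import Pool.Agent.T2H99.QB.HH
import Pool.Agent.T2H99.QB.HIN
import Pool.Agent.T2H99.QB.LAW
import Pool.Agent.T2H99.QB.MAX
import Pool.Agent.T2H99.QB.MEA
import Pool.Agent.T2H99.QB.MON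
import Pool.Agent.T2H99.QB.NA1
import Pool.Agent.T2H99.QB.NA2
import Pool.Agent.T2H99.QB.NV
import Pool.Agent.T2H99.QB.ORD
import Pool.Agent.T2H99.QB.OST
import Pool.Agent.T2H99.QB.PCON
import Pool.Agent.T2H99.QB.QNT
import Pool.Agent.T2H99.QB.SC
import Pool.Agent.T2H99.QB.SHA
import Pool.Agent.T2H99.QB.SHB
import Pool.Agent.T2H99.QB.SST
import Pool.Agent.T2H99.QB.TRF
import Pool.Agent.T2H99.QB.UNI
import Pool.Agent.T2H99.QB.STS
import Pool.Agent.T2H99.QB.STI
import Pool.Agent.T2H99.QB.Tgt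

set_option autoImplicit false

/-!
# Bias of order statistic quantile estimates over the families `F ≼_c W`, `F ≼_* W`
(MP_c5814c_pr, Q1): all four sharp bounds

Setting (`Ref W`, `Par n j p`): `W` is a continuous distribution function, strictly increasing on
its support interval `spt W = {0 < W < 1}`, `2 ≤ n`, `1 ≤ j ≤ n`, `0 < p < 1`,
`m = (j-1)/(n-1) ≤ p`. `w = quant W p = W⁻¹(p)`, `G n j u = P(Bin(n,u) ≥ j)`, `f n j = (G n j)'`,
`bias F n j p = (E_F X_{j:n} - F⁻¹(p)) / σ_F`, `Dist F`: `0 < σ_F < ∞`.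

* `StarPart` (star order). `Bsup = (1 - G(p)) / √(p(1-p))`,
  `Binf = √(G(r)²/r + ∫_r^p f² + G(p)²/(1-p))`, `r = min s p`, `s` the unique root of
  `s f(s) = G(s)` in `[m,1]`. If the left endpoint of `W` is finite then
  `sup = Bsup`, `inf = -Binf` over the family `F ≼_* W`; neither is attained. Both bounds hold for
  all distributions, and a distribution with bias close to `Bsup` (`-Binf`) is, after
  standardisation, `L²`-close to the two point law with masses `p`, `1-p` (to the law of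
  `-(ρ(U)+c) 1_{U ≤ p}` with `ρ = G(r)/r` on `(0,r]`, `f` on `(r,p]`, `c = G(p)/(1-p)`).
* If `E min(ξ,0)² = ∞` (`ξ ∼ W`) no distribution of finite variance precedes `W` in the convex
  order.
* `ConvSup` (convex order, upper bound). For `t > w` in `spt W` let
  `N(t) = E min(W_{j:n},t) - w`, `V(t) = Var min(ξ,t)`,
  `D(t) = (1-G(W(t))) V(t) - (1-W(t)) (t - E min(ξ,t)) N(t)`. If `N ≤ 0` then `sup = 0`. If `D` has
  a zero `t'` then it is unique, `sup = N(t')/√V(t')`, attained exactly by the laws of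
  `α min(ξ,t') + b`, `α > 0`. If `N > 0` somewhere and `D` has no zero then `E ξ² < ∞` and the sup
  is the bias of `W` itself, attained exactly by the laws of `α ξ + b`.
* `ConvInf` (convex order, lower bound). `inf = -√(E k(ξ) f(W(ξ)))`, attained exactly by the laws
  of `b - α k(ξ)`, where `k` is the unique convex nonincreasing function vanishing to the right of
  `w` whose residual `f(W(x)) - k(x) + E k(ξ)` is orthogonal to `k` and has nonpositive integral
  against the hinge functions `(t-x)_+`, `t ≤ w` (it is the projection onto the cone); `k` is affine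
  on `{W ≤ m}` and on every interval (left of `w`) with positive residual, has at most one kink on
  an interval with negative residual, and `k = c (w - min(x,w))` if `p = m`.
-/

namespace Pool.Agent.Results.MP_c5814c_pr.QuantileBias

open Pool.Agent.T2H99
open Pool.Agent.T2H99.QB (quant sdW sd bias spt Ref ConvLE lep StarLE G f Mt Vt Nt Dt Par Bsup Binf
  InK res pUNI pQNT pFF pBET pHH pMEA pCON pORD pCNT pOST pTRF pLAW pSST pDFS pDFI pAS1 pAS2 pAPX
  pCOL pEQS pEQ1 pEQ2 pCRL pCRR pNV pCS pMON pMAX pEND pC0B pEMP pCE1 pCE2 pEXI pCLO pDUN pDB pDAT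
  pAFF pHIN pNA1 pNA2 pSC pSHA pSHB pSTS pSTI assemble)
open MeasureTheory ProbabilityTheory Set

noncomputable section

/-- Values of the normalised bias over the family `F ≼_c W`, `0 < σ_F < ∞`. -/
def convVals (W : Measure ℝ) (n j : ℕ) (p : ℝ) : Set ℝ :=
  {b | ∃ μ, QB.Dist μ ∧ ConvLE μ W ∧ bias μ n j p = b}

/-- Values of the normalised bias over the family `F ≼_* W`, `0 < σ_F < ∞`. -/
def starVals (W : Measure ℝ) (n j : ℕ) (p : ℝ) : Set ℝ :=
  {b | ∃ μ, QB.Dist μ ∧ StarLE μ W ∧ bias μ n j p = b}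

/-- Square integrability of the negative part under `W`. -/
def IM (W : Measure ℝ) : Prop := Integrable (fun x => (min x 0) ^ 2) W

/-- Standardised quantile function `(F⁻¹(u) - mean) / σ_F`. -/
def stq (μ : Measure ℝ) (u : ℝ) : ℝ := (quant μ u - ∫ x, x ∂μ) / sd μ

/-- Standardised quantile function of the two point law with masses `p`, `1-p`. -/
def eSup (p u : ℝ) : ℝ := if u ≤ p then -Real.sqrt ((1 - p) / p) else Real.sqrt (p / (1 - p))

/-- Standardised quantile function of the law of `-(ρ(U) + c) 1_{U ≤ p}`, `c = G(p)/(1-p)`,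
`ρ = G(r)/r` on `(0,r]`, `ρ = f` on `(r,p]`, `r = min s p`. -/
def eInf (n j : ℕ) (p s u : ℝ) : ℝ :=
  (G n j p / (1 - p) - (if u ≤ p then
    (if u ≤ min s p then G n j (min s p) / min s p else f n j u) + G n j p / (1 - p) else 0)) /
    Binf n j p s

/-- The first order conditions: `k` is in the cone (convex, nonincreasing, zero to the right of
`w`, square integrable), the residual `res = f(W) - k + E k` is orthogonal to `k` and has
nonpositive integral against all hinge functions `(t-x)_+`, `t ≤ w`. -/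
def Sol (W : Measure ℝ) (n j : ℕ) (p : ℝ) (k : ℝ → ℝ) : Prop :=
  InK W p k ∧
    (∀ t ∈ spt W, t ≤ quant W p → ∫ x, max (t - x) 0 * res W n j k x ∂W ≤ 0) ∧
    ∫ x, k x * res W n j k x ∂W = 0

/-- The star order bounds (and the bounds over all distributions). -/
def StarPart (W : Measure ℝ) (n j : ℕ) (p : ℝ) : Prop :=
  ∃ s : ℝ, ((j : ℝ) - 1) / ((n : ℝ) - 1) ≤ s ∧ s < 1 ∧ s * f n j s = G n j s ∧
    (∀ s' ∈ Icc (((j : ℝ) - 1) / ((n : ℝ) - 1)) 1, s' * f n j s' = G n j s' → s' = s) ∧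
    -- bounds over all distributions
    (∀ μ, QB.Dist μ → -Binf n j p s ≤ bias μ n j p ∧ bias μ n j p ≤ Bsup n j p) ∧
    -- laws almost attaining the bounds are close (after standardisation) to explicit laws
    (∀ μ, QB.Dist μ →
      (∫ u in (0 : ℝ)..1, (stq μ u - eSup p u) ^ 2 ≤ 4 * (1 - bias μ n j p / Bsup n j p)) ∧
      (∫ u in (0 : ℝ)..1, (stq μ u - eInf n j p s u) ^ 2 ≤
        4 * (1 + bias μ n j p / Binf n j p s))) ∧
    -- sharpness over the star order family, the bounds are not attained there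
    (BddBelow {x | 0 < cdf W x} →
      IsLUB (starVals W n j p) (Bsup n j p) ∧ IsGLB (starVals W n j p) (-Binf n j p s) ∧
      ∀ μ, QB.Dist μ → StarLE μ W →
        -Binf n j p s < bias μ n j p ∧ bias μ n j p < Bsup n j p)

/-- The upper bound over the convex order family. -/
def ConvSup (W : Measure ℝ) (n j : ℕ) (p : ℝ) : Prop :=
  ((∀ t ∈ spt W, quant W p < t → Nt W n j p t ≤ 0) → IsLUB (convVals W n j p) 0) ∧
  ((∃ t ∈ spt W, quant W p < t ∧ 0 < Nt W n j p t) →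
    (∀ t ∈ spt W, quant W p < t → Dt W n j p t ≠ 0) →
      Integrable (fun x : ℝ => x ^ 2) W ∧ IsGreatest (convVals W n j p) (bias W n j p) ∧
      ∀ μ, QB.Dist μ → ConvLE μ W → (bias μ n j p = bias W n j p ↔
        ∃ α b : ℝ, 0 < α ∧ μ = W.map (fun x => α * x + b))) ∧
  (∀ t' ∈ spt W, quant W p < t' → Dt W n j p t' = 0 →
    0 < Nt W n j p t' ∧ (∀ t ∈ spt W, quant W p < t → Dt W n j p t = 0 → t = t') ∧
    IsGreatest (convVals W n j p) (Nt W n j p t' / Real.sqrt (Vt W t')) ∧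
    ∀ μ, QB.Dist μ → ConvLE μ W → (bias μ n j p = Nt W n j p t' / Real.sqrt (Vt W t') ↔
      ∃ α b : ℝ, 0 < α ∧ μ = W.map (fun x => α * min x t' + b)))

/-- The lower bound over the convex order family. -/
def ConvInf (W : Measure ℝ) (n j : ℕ) (p : ℝ) : Prop :=
  ∃ k : ℝ → ℝ, Sol W n j p k ∧ (∀ k', Sol W n j p k' → EqOn k k' (spt W)) ∧
    0 < (∫ x, k x * f n j (cdf W x) ∂W) ∧
    IsLeast (convVals W n j p) (-Real.sqrt (∫ x, k x * f n j (cdf W x) ∂W)) ∧
    (∀ μ, QB.Dist μ → ConvLE μ W →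
      (bias μ n j p = -Real.sqrt (∫ x, k x * f n j (cdf W x) ∂W) ↔
        ∃ α b : ℝ, 0 < α ∧ μ = W.map (fun x => b - α * k x))) ∧
    -- shape of the extremal function
    (∃ α b : ℝ, ∀ x ∈ spt W, cdf W x ≤ ((j : ℝ) - 1) / ((n : ℝ) - 1) → k x = α * x + b) ∧
    (∀ α ∈ spt W, ∀ β ∈ spt W, α < β → β ≤ quant W p →
      ((∀ x ∈ Icc α β, 0 < res W n j k x) → ∃ c b : ℝ, ∀ x ∈ Icc α β, k x = c * x + b) ∧
      ((∀ x ∈ Ioo α β, res W n j k x < 0) →
        ∃ c b c' b' : ℝ, ∀ x ∈ Icc α β, k x = max (c * x + b) (c' * x + b'))) ∧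
    (p = ((j : ℝ) - 1) / ((n : ℝ) - 1) →
      ∃ c : ℝ, 0 < c ∧ ∀ x ∈ spt W, k x = c * (quant W p - min x (quant W p)))

theorem result (W : Measure ℝ) (hW : Ref W) (n j : ℕ) (p : ℝ) (hp : Par n j p) :
    StarPart W n j p ∧
      (¬ IM W → ∀ μ, QB.Dist μ → ¬ ConvLE μ W) ∧
      (IM W → ConvSup W n j p ∧ ConvInf W n j p) := by
  have hUNI : QB.S_UNI := pUNI pQNT
  have hFF : QB.S_FF := pFF pBET
  have hHH : QB.S_HH := pHH hUNI hFF pBET
  have hMEA : QB.S_MEA := pMEA hUNI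
  have hCON : QB.S_CON := pCON hUNI
  have hORD : QB.S_ORD := pORD pCNT pBET pOST pQNT
  have hTRF : QB.S_TRF := pTRF hUNI pQNT hORD
  have hLAW : QB.S_LAW := pLAW hUNI pQNT hMEA hTRF
  have hSST : QB.S_SST := pSST hFF pBET
  have hDFS : QB.S_DFS := pDFS hUNI hFF hHH hMEA hCON
  have hDFI : QB.S_DFI := pDFI hUNI hFF hHH hMEA hCON hSST pBET
  have hAS1 : QB.S_AS1 := pAS1 hUNI hFF hHH
  have hAS2 : QB.S_AS2 := pAS2 hUNI hFF hHH hSST pBET
  have hAPX : QB.S_APX := pAPX hUNI hFF hHH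
  have hCOL : QB.S_COL := pCOL hUNI hFF hHH
  have hEQS : QB.S_EQS := pEQS hUNI pQNT hLAW
  have hEQ1 : QB.S_EQ1 := pEQ1 hUNI pQNT
  have hEQ2 : QB.S_EQ2 := pEQ2 hUNI pQNT hLAW
  have hCRL : QB.S_CRL := pCRL hUNI hHH hMEA hCON
  have hCRR : QB.S_CRR := pCRR hUNI hFF hHH hMEA hCON
  have hNV : QB.S_NV := pNV hUNI hFF hHH
  have hCS : QB.S_CS := pCS hUNI
  have hMON : QB.S_MON := pMON hUNI hFF pBET hNV hCS
  have hMAX : QB.S_MAX := pMAX hUNI hFF hNV hMON
  have hEND : QB.S_END := pEND hUNI hFF hHH pBET hNV hMON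
  have hC0B : QB.S_C0B := pC0B hUNI hFF hHH
  have hEMP : QB.S_EMP := pEMP hUNI
  have hCE1 : QB.S_CE1 := pCE1 hUNI hHH hMEA hNV hMAX hCRL hCRR
  have hCE2 : QB.S_CE2 := pCE2 hUNI hFF hHH hMEA hCRL hNV hEND
  have hEXI : QB.S_EXI := pEXI hUNI hFF hHH hMEA (pCLO hUNI)
  have hDUN : QB.S_DUN := pDUN hUNI hHH hMEA
  have hDB : QB.S_DB := pDB hUNI hFF hHH hMEA hCON
  have hDAT : QB.S_DAT := pDAT hUNI hFF hHH hMEA
  have hAFF : QB.S_AFF := pAFF hUNI hFF hHH hMEA
  have hHIN : QB.S_HIN := pHIN hUNI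
  have hNA1 : QB.S_NA1 := pNA1 hUNI hFF hHH hMEA hCON
  have hNA2 : QB.S_NA2 := pNA2 hUNI hFF hHH hMEA pBET hDFI
  have hSC : QB.S_SC := pSC hUNI pQNT
  have hSHA : QB.S_SHA := pSHA hUNI hHH hMEA
  have hSHB : QB.S_SHB := pSHB hUNI hFF hHH hMEA
  have hSTS : QB.S_STS := pSTS hUNI pQNT hHH hMEA hTRF hDFS
  have hSTI : QB.S_STI := pSTI hUNI pQNT hFF hHH hMEA pBET hSST hTRF hDFI
  exact assemble hHH hUNI hMEA hTRF hLAW hSST hDFS hDFI hAS1 hAS2 hAPX hCOL hEQS hEQ1 hEQ2 hCRL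
    hCRR hNV hMAX hEND hC0B hEMP hCE1 hCE2 hEXI hDUN hDB hDAT hAFF hHIN hNA1 hNA2 hSC hSHA hSHB
    hSTS hSTI W hW n j p hp

end

end Pool.Agent.Results.MP_c5814c_pr.QuantileBias
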